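import Pool.Agent.Helper8.RS3.YLOC

/-!
# A negative sender with adjacent signal edges from a minimal gluing of stars
-/

set_option autoImplicit false

namespace Pool.Agent.Helper77.SND

theorem crit_pb {V V' : Type} (c : Sym2 V' → Bool) (i : V → V') (a b : V) :
    pb c i s(a, b) = c s(i a, i b) := rfl

/-- goodness depends only on the colours of the edges -/
theorem crit_congr {m : ℕ} {V : Type} (H : SimpleGraph (Fin m)) (G : SimpleGraph V)
    (c d : Sym2 V → Bool) (h : ∀ a b, G.Adj a b → c s(a, b) = d s(a, b)) (hc : Good H G c) :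
    Good H G d := by
  intro b f hf
  obtain ⟨z, w, h1, h2⟩ := hc b f hf
  exact ⟨z, w, h1, by rw [← h _ _ (hf.2 z w h1)]; exact h2⟩

theorem crit_yadj {V E L : Type} (X : SimpleGraph V) (x : V) (lam : E → Lf X x → L)
    (hlam : ∀ α, Function.Injective (lam α)) (α : E) (a b : V) (h : X.Adj a b) :
    (Yg X x lam).Adj (emb X x lam α a) (emb X x lam α b) :=
  ⟨fun h' => h.ne (yloc_emb_inj X x lam hlam α h'), α, a, b, h, rfl, rfl⟩

/-- a colouring of the union is good iff its restrictions to the pieces are good -/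
theorem crit_PB (h1 : ST_YLOC) {m : ℕ} (H : SimpleGraph (Fin m)) (hC : C3 H) {V E L : Type}
    (X : SimpleGraph V) (x : V) (lam : E → Lf X x → L)
    (hlam : ∀ α, Function.Injective (lam α)) (hs : Sparse (m * m) lam)
    (C : Sym2 (Option (L ⊕ (E × Pv X x))) → Bool) :
    Good H (Yg X x lam) C ↔ ∀ α, Good H X (pb C (emb X x lam α)) := by
  constructor
  · intro hC' α b f hf
    obtain ⟨z, w, e1, e2⟩ := hC' b (fun z => emb X x lam α (f z))
      ⟨fun z w hzw => hf.1 (yloc_emb_inj X x lam hlam α hzw), fun z w hzw =>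
        crit_yadj X x lam hlam α _ _ (hf.2 z w hzw)⟩
    exact ⟨z, w, e1, e2⟩
  · intro hC' b f hf
    obtain ⟨α, g, hg, hfg⟩ := h1 m H hC V E L X x lam hlam hs f hf
    obtain ⟨z, w, e1, e2⟩ := hC' α b g hg
    refine ⟨z, w, e1, ?_⟩
    rw [hfg z, hfg w]
    exact e2

theorem st_CRIT (h1 : ST_YLOC) (h2 : ST_YCOL) : ST_CRIT := by
  classical
  intro m H hC hStar hHyp
  obtain ⟨V, hV, X, x, ⟨c0, hc0⟩, hx⟩ := hStar
  obtain ⟨E, L, hE, hL, lam1, hl1, hl2, hl3⟩ := hHyp (Lf X x)
  have hmm : 2 ≤ m * m := by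
    have := hC.1
    nlinarith
  -- the family of gluings without a good colouring
  let L' : Type := L ⊕ Option (E × Lf X x)
  let SS : Set (E → Lf X x → L') := {lam | (∀ α, Function.Injective (lam α)) ∧
    Sparse (m * m) lam ∧ ¬ ∃ C, Good H (Yg X x lam) C}
  let μ : (E → Lf X x → L') → ℕ := fun lam =>
    Set.ncard {p : (E × Lf X x) × (E × Lf X x) | lam p.1.1 p.1.2 = lam p.2.1 p.2.2}
  have hne : SS.Nonempty := by
    refine ⟨fun α k => Sum.inl (lam1 α k), ?_, ?_, ?_⟩
    · intro α k k' h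
      exact hl1 α (Sum.inl_injective h)
    · intro F hF hc
      obtain ⟨α, hα, h⟩ := hl2 F hF hc
      exact ⟨α, hα, fun β hβ β' hβ' n1 n2 k k' l l' e1 e2 =>
        h β hβ β' hβ' n1 n2 k k' l l' (Sum.inl_injective e1) (Sum.inl_injective e2)⟩
    · rintro ⟨C, hC'⟩
      have hinj : ∀ α, Function.Injective (fun k : Lf X x => (Sum.inl (lam1 α k) : L')) :=
        fun α k k' h => hl1 α (Sum.inl_injective h)
      have hsp : Sparse (m * m) (fun α (k : Lf X x) => (Sum.inl (lam1 α k) : L')) := by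
        intro F hF hc
        obtain ⟨α, hα, h⟩ := hl2 F hF hc
        exact ⟨α, hα, fun β hβ β' hβ' n1 n2 k k' l l' e1 e2 =>
          h β hβ β' hβ' n1 n2 k k' l l' (Sum.inl_injective e1) (Sum.inl_injective e2)⟩
      rw [crit_PB h1 H hC X x _ hinj hsp C] at hC'
      obtain ⟨α, hα⟩ := hl3 (fun l => C s(none, some (Sum.inl (Sum.inl l))))
      obtain ⟨y, hy1, hy2⟩ := hx _ (hC' α) true
      obtain ⟨y', hy1', hy2'⟩ := hx _ (hC' α) false
      rw [crit_pb, yloc_emb_x] at hy2 hy2'
      have e1 := yloc_emb_leaf X x (fun α (k : Lf X x) => (Sum.inl (lam1 α k) : L')) α ⟨y, hy1⟩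
      have e2 := yloc_emb_leaf X x (fun α (k : Lf X x) => (Sum.inl (lam1 α k) : L')) α ⟨y', hy1'⟩
      simp only at e1 e2
      rw [e1] at hy2
      rw [e2] at hy2'
      have := hα ⟨y, hy1⟩ ⟨y', hy1'⟩
      rw [hy2, hy2'] at this
      exact Bool.noConfusion this
  obtain ⟨lam, ⟨hinj, hsp, hbad⟩, hmin⟩ := (measure μ).wf.has_min SS hne
  have hmin' : ∀ lam' ∈ SS, μ lam ≤ μ lam' := fun l hl => not_lt.mp (hmin l hl)
  -- some value is taken twice
  obtain ⟨a0, k0, b0, k1, hval, hdiff⟩ : ∃ a0 k0 b0 k1, lam a0 k0 = lam b0 k1 ∧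
      ¬ (a0 = b0 ∧ k0 = k1) := by
    by_contra hcon
    push Not at hcon
    apply hbad
    obtain ⟨C, hC'⟩ := h2 V E L' X x lam hinj (fun F hF hc => hsp F hF (hc.trans hmm))
      (fun _ => c0) (fun α β k k' h => by rw [(hcon α k β k' h).2])
    refine ⟨C, ?_⟩
    rw [crit_PB h1 H hC X x lam hinj hsp C]
    intro α
    exact crit_congr H X c0 _ (fun a b hab => by rw [crit_pb, hC' α a b hab]) hc0
  have hab : a0 ≠ b0 := by
    intro h
    subst h
    exact hdiff ⟨rfl, hinj a0 hval⟩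
  -- a value that is not taken
  obtain ⟨ω, hω⟩ : ∃ ω : L', ∀ α k, lam α k ≠ ω := by
    by_contra hcon
    push Not at hcon
    have hsurj : Function.Surjective (fun p : E × Lf X x => lam p.1 p.2) := by
      intro ω
      obtain ⟨α, k, h⟩ := hcon ω
      exact ⟨(α, k), h⟩
    have e1 : Nat.card L' ≤ Nat.card (E × Lf X x) := Nat.card_le_card_of_surjective _ hsurj
    have e2 : Nat.card (Option (E × Lf X x)) ≤ Nat.card L' :=
      Nat.card_le_card_of_injective (Sum.inr : Option (E × Lf X x) → L') Sum.inr_injective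
    have e3 : Nat.card (Option (E × Lf X x)) = Nat.card (E × Lf X x) + 1 :=
      Finite.card_option
    omega
  -- the modified gluing
  let lam' : E → Lf X x → L' := fun α k => if α = a0 ∧ k = k0 then ω else lam α k
  have hl'0 : lam' a0 k0 = ω := by simp [lam']
  have hl'1 : ∀ α k, ¬ (α = a0 ∧ k = k0) → lam' α k = lam α k := by
    intro α k h
    simp only [lam']
    rw [if_neg h]
  have hl'eq : ∀ α k β l, lam' α k = lam' β l → lam α k = lam β l := by
    intro α k β l h
    by_cases e1 : α = a0 ∧ k = k0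
    · by_cases e2 : β = a0 ∧ l = k0
      · rw [e1.1, e1.2, e2.1, e2.2]
      · exfalso
        rw [e1.1, e1.2, hl'0, hl'1 β l e2] at h
        exact hω β l h.symm
    · by_cases e2 : β = a0 ∧ l = k0
      · exfalso
        rw [e2.1, e2.2, hl'0, hl'1 α k e1] at h
        exact hω α k h
      · rw [hl'1 α k e1, hl'1 β l e2] at h
        exact h
  have hinj' : ∀ α, Function.Injective (lam' α) := fun α k k' h =>
    hinj α (hl'eq α k α k' h)
  have hsp' : Sparse (m * m) lam' := by
    intro F hF hc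
    obtain ⟨α, hα, h⟩ := hsp F hF hc
    exact ⟨α, hα, fun β hβ β' hβ' n1 n2 k k' l l' e1 e2 =>
      h β hβ β' hβ' n1 n2 k k' l l' (hl'eq _ _ _ _ e1) (hl'eq _ _ _ _ e2)⟩
  have hlt : μ lam' < μ lam := by
    apply Set.ncard_lt_ncard _ (Set.toFinite _)
    rw [Set.ssubset_iff_of_subset]
    · refine ⟨((a0, k0), (b0, k1)), hval, ?_⟩
      intro h
      change lam' a0 k0 = lam' b0 k1 at h
      rw [hl'0, hl'1 b0 k1 (fun h => hab h.1.symm)] at h
      exact hω _ _ h.symm
    · rintro ⟨⟨α, k⟩, ⟨β, l⟩⟩ h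
      exact hl'eq _ _ _ _ h
  have hgood' : ∃ C, Good H (Yg X x lam') C := by
    by_contra hcon
    have := hmin' lam' ⟨hinj', hsp', hcon⟩
    omega
  have hb1 : lam' b0 k1 = lam b0 k1 := hl'1 b0 k1 (fun h => hab h.1.symm)
  refine ⟨Option (L' ⊕ (E × Pv X x)), inferInstance, Yg X x lam', none, some (Sum.inl ω),
    some (Sum.inl (lam b0 k1)), ?_, ?_, ?_, hgood', ?_⟩
  · intro h
    exact hω b0 k1 (Sum.inl_injective (Option.some_injective _ h)).symm
  · have := crit_yadj X x lam' hinj' a0 x k0.1 k0.2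
    rw [yloc_emb_x, yloc_emb_leaf, hl'0] at this
    exact this
  · have := crit_yadj X x lam' hinj' b0 x k1.1 k1.2
    rw [yloc_emb_x, yloc_emb_leaf, hb1] at this
    exact this
  · intro c hc heq
    apply hbad
    rw [crit_PB h1 H hC X x lam' hinj' hsp' c] at hc
    have hval' : ∀ α (k : Lf X x), pb c (emb X x lam' α) s(x, k.1) =
        c s(none, some (Sum.inl (lam' α k))) := by
      intro α k
      rw [crit_pb, yloc_emb_x, yloc_emb_leaf]
    obtain ⟨C, hC'⟩ := h2 V E L' X x lam hinj (fun F hF hc => hsp F hF (hc.trans hmm))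
      (fun α => pb c (emb X x lam' α)) (by
        intro α β k k' h
        rw [hval', hval']
        by_cases e1 : α = a0 ∧ k = k0
        · by_cases e2 : β = a0 ∧ k' = k0
          · rw [e1.1, e1.2, e2.1, e2.2]
          · rw [hl'1 β k' e2, ← h, e1.1, e1.2, hl'0, hval]
            exact heq
        · by_cases e2 : β = a0 ∧ k' = k0
          · rw [hl'1 α k e1, h, e2.1, e2.2, hl'0, hval]
            exact heq.symm
          · rw [hl'1 α k e1, hl'1 β k' e2, h])
    refine ⟨C, ?_⟩
    rw [crit_PB h1 H hC X x lam hinj hsp C]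
    intro α
    exact crit_congr H X _ _ (fun a b hab => by rw [crit_pb C, hC' α a b hab]) (hc α)

end Pool.Agent.Helper77.SND
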