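import Pool.Agent.Helper77.SND.Stmts

/-!
# Every copy of a 3-connected graph in the union of the pieces lies in one piece
-/

set_option autoImplicit false

namespace Pool.Agent.Helper77.SND

theorem yloc_emb_x {V E L : Type} (X : SimpleGraph V) (x : V) (lam : E → Lf X x → L) (α : E) :
    emb X x lam α x = none := by
  simp [emb]

theorem yloc_emb_leaf {V E L : Type} (X : SimpleGraph V) (x : V) (lam : E → Lf X x → L) (α : E)
    (k : Lf X x) : emb X x lam α k.1 = some (Sum.inl (lam α k)) := by
  have h1 : k.1 ≠ x := k.2.ne'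
  have h2 : X.Adj x k.1 := k.2
  simp [emb, h1, h2]

theorem yloc_emb_pv {V E L : Type} (X : SimpleGraph V) (x : V) (lam : E → Lf X x → L) (α : E)
    (v : V) (h1 : v ≠ x) (h2 : ¬ X.Adj x v) :
    emb X x lam α v = some (Sum.inr (α, ⟨v, h1, h2⟩)) := by
  simp [emb, h1, h2]

theorem yloc_emb_none {V E L : Type} (X : SimpleGraph V) (x : V) (lam : E → Lf X x → L) (α : E)
    (v : V) (h : emb X x lam α v = none) : v = x := by
  by_contra h1
  by_cases h2 : X.Adj x v
  · have := yloc_emb_leaf X x lam α ⟨v, h2⟩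
    simp only at this
    rw [this] at h
    exact Option.some_ne_none _ h
  · rw [yloc_emb_pv X x lam α v h1 h2] at h
    exact Option.some_ne_none _ h

theorem yloc_emb_eq {V E L : Type} (X : SimpleGraph V) (x : V) (lam : E → Lf X x → L) (α β : E)
    (a b : V) (h : emb X x lam α a = emb X x lam β b) :
    (a = x ∧ b = x) ∨ (∃ k l : Lf X x, a = k.1 ∧ b = l.1 ∧ lam α k = lam β l) ∨
      (α = β ∧ a = b) := by
  by_cases ha : a = x
  · left
    subst ha
    rw [yloc_emb_x] at h
    exact ⟨rfl, yloc_emb_none X a lam β b h.symm⟩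
  by_cases hb : b = x
  · subst hb
    rw [yloc_emb_x] at h
    exact absurd (yloc_emb_none X b lam α a h) ha
  right
  by_cases ha' : X.Adj x a
  · by_cases hb' : X.Adj x b
    · left
      refine ⟨⟨a, ha'⟩, ⟨b, hb'⟩, rfl, rfl, ?_⟩
      have h1 := yloc_emb_leaf X x lam α ⟨a, ha'⟩
      have h2 := yloc_emb_leaf X x lam β ⟨b, hb'⟩
      simp only at h1 h2
      rw [h1, h2] at h
      exact Sum.inl_injective (Option.some_injective _ h)
    · exfalso
      have h1 := yloc_emb_leaf X x lam α ⟨a, ha'⟩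
      simp only at h1
      rw [h1, yloc_emb_pv X x lam β b hb hb'] at h
      have := Option.some_injective _ h
      cases this
  · by_cases hb' : X.Adj x b
    · exfalso
      have h2 := yloc_emb_leaf X x lam β ⟨b, hb'⟩
      simp only at h2
      rw [h2, yloc_emb_pv X x lam α a ha ha'] at h
      have := Option.some_injective _ h
      cases this
    · right
      rw [yloc_emb_pv X x lam α a ha ha', yloc_emb_pv X x lam β b hb hb'] at h
      have h3 := Sum.inr_injective (Option.some_injective _ h)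
      have h4 := congrArg Prod.fst h3
      have h5 := congrArg (fun t => (Prod.snd t).1) h3
      exact ⟨h4, h5⟩

theorem yloc_emb_inj {V E L : Type} (X : SimpleGraph V) (x : V) (lam : E → Lf X x → L)
    (hlam : ∀ α, Function.Injective (lam α)) (α : E) : Function.Injective (emb X x lam α) := by
  intro a b h
  rcases yloc_emb_eq X x lam α α a b h with ⟨h1, h2⟩ | ⟨k, l, h1, h2, h3⟩ | ⟨_, h2⟩
  · rw [h1, h2]
  · rw [h1, h2, hlam α h3]
  · exact h2

/-- two different members share at most one point -/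
theorem yloc_pair {E K L : Type} (r : ℕ) (hr : 2 ≤ r) (lam : E → K → L) (hs : Sparse r lam)
    (hlam : ∀ α, Function.Injective (lam α))
    (α β : E) (hne : α ≠ β) (k k' l l' : K) (h : lam α k = lam β l) (h' : lam α k' = lam β l') :
    k = k' := by
  classical
  obtain ⟨γ, hγ, h1⟩ := hs {α, β} ⟨α, by simp⟩ (by rw [Finset.card_pair hne]; exact hr)
  rw [Finset.mem_insert, Finset.mem_singleton] at hγ
  rcases hγ with rfl | rfl
  · exact h1 β (by simp) β (by simp) hne.symm hne.symm k k' l l' h h'
  · have h2 := h1 α (by simp) α (by simp) hne hne l l' k k' h.symm h'.symm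
    subst h2
    exact hlam α (h.trans h'.symm)

/-- an edge of `Yg` between points of the piece `α` is an edge of `X` -/
theorem yloc_adj {V E L : Type} (X : SimpleGraph V) (x : V) (lam : E → Lf X x → L)
    (hlam : ∀ α, Function.Injective (lam α)) (hs : Sparse 2 lam) (α : E) (a b : V)
    (h : (Yg X x lam).Adj (emb X x lam α a) (emb X x lam α b)) : X.Adj a b := by
  obtain ⟨hne, β, a', b', hab, h1, h2⟩ := h
  have hne' : a ≠ b := fun h => hne (by rw [h])
  by_cases hβ : β = α
  · subst hβ
    have e1 := yloc_emb_inj X x lam hlam β h1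
    have e2 := yloc_emb_inj X x lam hlam β h2
    rw [← e1, ← e2]
    exact hab
  rcases yloc_emb_eq X x lam β α a' a h1 with ⟨e1, e2⟩ | ⟨k, l, e1, e2, e3⟩ | ⟨e1, _⟩
  · rcases yloc_emb_eq X x lam β α b' b h2 with ⟨e1', e2'⟩ | ⟨k', l', e1', e2', e3'⟩ | ⟨e1', _⟩
    · exact absurd (e1.trans e1'.symm) hab.ne
    · rw [e2, e2']
      exact l'.2
    · exact absurd e1' hβ
  · rcases yloc_emb_eq X x lam β α b' b h2 with ⟨e1', e2'⟩ | ⟨k', l', e1', e2', e3'⟩ | ⟨e1', _⟩
    · rw [e2, e2']
      exact l.2.symm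
    · exfalso
      have := yloc_pair 2 le_rfl lam hs hlam β α hβ k k' l l' e3 e3'
      exact hab.ne (by rw [e1, e1', this])
    · exact absurd e1' hβ
  · exact absurd e1 hβ

theorem st_YLOC : ST_YLOC := by
  classical
  intro m H hC3 V E L X x lam hlam hsp f hf
  obtain ⟨hm, hsep⟩ := hC3
  obtain ⟨hinj, hadj⟩ := hf
  have hmm : 2 ≤ m * m := by nlinarith
  have hs2 : Sparse 2 lam := fun F hF hc => hsp F hF (hc.trans hmm)
  -- the choice of the pieces of the edges
  have hch : ∀ z w : Fin m, ∃ α : E, ∃ a b : V, H.Adj z w → X.Adj a b ∧ emb X x lam α a = f z ∧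
      emb X x lam α b = f w := by
    intro z w
    by_cases h : H.Adj z w
    · obtain ⟨_, α, a, b, h1, h2, h3⟩ := hadj z w h
      exact ⟨α, a, b, fun _ => ⟨h1, h2, h3⟩⟩
    · -- there is some edge at all
      obtain ⟨z1, w1, hz1⟩ : ∃ z1 w1, H.Adj z1 w1 := by
        obtain ⟨p, q, _, _, hpq⟩ := hsep (fun z => if z = (⟨0, by omega⟩ : Fin m) then some true
          else some false) ⟨0, by omega⟩ ⟨0, by omega⟩ (by
            intro y hy
            split_ifs at hy) ⟨⟨0, by omega⟩, by simp⟩ ⟨⟨1, by omega⟩, by simp⟩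
        exact ⟨p, q, hpq⟩
      obtain ⟨_, α, a, b, _⟩ := hadj z1 w1 hz1
      exact ⟨α, a, b, fun h' => absurd h' h⟩
  choose A B C hABC using hch
  set F : Finset E := (Finset.univ.filter (fun p : Fin m × Fin m => H.Adj p.1 p.2 ∧ f p.1 ≠ none ∧
    f p.2 ≠ none)).image (fun p => A p.1 p.2) with hFdef
  have hFmem : ∀ z w, H.Adj z w → f z ≠ none → f w ≠ none → A z w ∈ F := by
    intro z w h1 h2 h3
    rw [hFdef, Finset.mem_image]
    exact ⟨(z, w), by simp [h1, h2, h3], rfl⟩
  have hFcard : F.card ≤ m * m := by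
    rw [hFdef]
    refine Finset.card_image_le.trans ((Finset.card_filter_le _ _).trans ?_)
    simp
  -- a vertex that is the only candidate for the value `none`
  obtain ⟨p0, hp0⟩ : ∃ p0 : Fin m, ∀ z, f z = none → z = p0 := by
    by_cases h : ∃ z, f z = none
    · obtain ⟨z0, hz0⟩ := h
      exact ⟨z0, fun z hz => hinj (hz.trans hz0.symm)⟩
    · push Not at h
      exact ⟨⟨0, by omega⟩, fun z hz => absurd hz (h z)⟩
  have hFne : F.Nonempty := by
    -- two further vertices
    obtain ⟨x1, hx1⟩ : ∃ x1 : Fin m, x1 ≠ p0 := by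
      by_contra h
      push Not at h
      have h0 := h ⟨0, by omega⟩
      have h1 := h ⟨1, by omega⟩
      have := h0.trans h1.symm
      simp at this
    obtain ⟨y1, hy1, hy2⟩ : ∃ y1 : Fin m, y1 ≠ p0 ∧ y1 ≠ x1 := by
      by_contra h
      push Not at h
      have hc : (Finset.univ : Finset (Fin m)) ⊆ {p0, x1} := by
        intro z _
        rw [Finset.mem_insert, Finset.mem_singleton]
        by_cases hz : z = p0
        · exact Or.inl hz
        · exact Or.inr (h z hz)
      have := Finset.card_le_card hc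
      rw [Finset.card_univ, Fintype.card_fin] at this
      have h3 := Finset.card_le_two (a := p0) (b := x1)
      omega
    obtain ⟨z, w, hz, hw, hzw⟩ := hsep (fun z => if z = p0 then none else if z = x1 then some true
      else some false) p0 p0 (by
        intro y hy
        left
        by_contra h
        rw [if_neg h] at hy
        split_ifs at hy) ⟨x1, by simp [hx1]⟩ ⟨y1, by simp [hy1, hy2]⟩
    have hz0 : z ≠ p0 := by
      intro h
      simp [h] at hz
    have hw0 : w ≠ p0 := by
      intro h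
      simp [h] at hw
    exact ⟨A z w, hFmem z w hzw (fun h => hz0 (hp0 z h)) (fun h => hw0 (hp0 w h))⟩
  obtain ⟨α, hα, hsh⟩ := hsp F hFne hFcard
  -- shared leaves
  set Sh : Lf X x → Prop := fun k => ∃ β ∈ F, β ≠ α ∧ ∃ l, lam α k = lam β l with hShdef
  have hShu : ∀ k k', Sh k → Sh k' → k = k' := by
    rintro k k' ⟨β, hβ, hβα, l, hl⟩ ⟨β', hβ', hβα', l', hl'⟩
    exact hsh β hβ β' hβ' hβα hβα' k k' l l' hl hl'
  -- a vertex that is the only candidate for the shared leaf
  obtain ⟨q0, hq0⟩ : ∃ q0 : Fin m, ∀ z k, Sh k → f z = some (Sum.inl (lam α k)) → z = q0 := by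
    by_cases h : ∃ z k, Sh k ∧ f z = some (Sum.inl (lam α k))
    · obtain ⟨z0, k0, hk0, hz0⟩ := h
      refine ⟨z0, fun z k hk hz => hinj ?_⟩
      rw [hz, hz0, hShu k k0 hk hk0]
    · push Not at h
      exact ⟨⟨0, by omega⟩, fun z k hk hz => absurd hz (h z k hk)⟩
  set s : Fin m → Option Bool := fun z =>
    if f z = none ∨ (∃ k, Sh k ∧ f z = some (Sum.inl (lam α k))) then none
    else if ∃ v, f z = emb X x lam α v then some true else some false with hsdef
  have hs_none : ∀ z, s z = none → (f z = none ∨ (∃ k, Sh k ∧ f z = some (Sum.inl (lam α k)))) := by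
    intro z hz
    by_contra h
    simp only [hsdef] at hz
    rw [if_neg h] at hz
    split_ifs at hz
  have hs_true : ∀ z, s z = some true → (¬ (f z = none ∨ (∃ k, Sh k ∧
      f z = some (Sum.inl (lam α k)))) ∧ ∃ v, f z = emb X x lam α v) := by
    intro z hz
    simp only [hsdef] at hz
    split_ifs at hz with h1 h2
    · exact ⟨h1, h2⟩
    · simp at hz
  have hs_false : ∀ z, s z = some false → (¬ (f z = none ∨ (∃ k, Sh k ∧
      f z = some (Sum.inl (lam α k)))) ∧ ¬ ∃ v, f z = emb X x lam α v) := by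
    intro z hz
    simp only [hsdef] at hz
    split_ifs at hz with h1 h2
    · simp at hz
    · exact ⟨h1, h2⟩
  have hno : ∀ z w, s z = some true → s w = some false → ¬ H.Adj z w := by
    intro z w hz hw hzw
    obtain ⟨hz1, v, hv⟩ := hs_true z hz
    obtain ⟨hw1, hw2⟩ := hs_false w hw
    have hzn : f z ≠ none := fun h => hz1 (Or.inl h)
    have hwn : f w ≠ none := fun h => hw1 (Or.inl h)
    have hβ := hFmem z w hzw hzn hwn
    obtain ⟨g1, g2, g3⟩ := hABC z w hzw
    by_cases hβα : A z w = α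
    · exact hw2 ⟨C z w, by rw [← g3, hβα]⟩
    · have hE : emb X x lam α v = emb X x lam (A z w) (B z w) := by rw [← hv, g2]
      rcases yloc_emb_eq X x lam α (A z w) v (B z w) hE with ⟨e1, _⟩ | ⟨k, l, e1, e2, e3⟩ | ⟨e1, _⟩
      · apply hzn
        rw [hv, e1, yloc_emb_x]
      · apply hz1
        right
        refine ⟨k, ⟨A z w, hβ, hβα, l, e3⟩, ?_⟩
        rw [hv, e1, yloc_emb_leaf]
      · exact hβα e1.symm
  have htrue : ∃ z, s z = some true := by
    rw [hFdef, Finset.mem_image] at hα
    obtain ⟨⟨z, w⟩, hzw, hA⟩ := hα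
    simp only [Finset.mem_filter, Finset.mem_univ, true_and] at hzw hA
    obtain ⟨hzw, hz0, hw0⟩ := hzw
    obtain ⟨g1, g2, g3⟩ := hABC z w hzw
    rw [hA] at g2 g3
    by_contra hcon
    push Not at hcon
    have key : ∀ y : Fin m, f y ≠ none → (∃ v, f y = emb X x lam α v) →
        ∃ k, Sh k ∧ f y = some (Sum.inl (lam α k)) := by
      intro y hy hv
      by_contra h
      apply hcon y
      simp only [hsdef]
      rw [if_neg (by
        rintro (h1 | h1)
        · exact hy h1
        · exact h h1), if_pos hv]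
    obtain ⟨k, hk, hk1⟩ := key z hz0 ⟨_, g2.symm⟩
    obtain ⟨k', hk', hk1'⟩ := key w hw0 ⟨_, g3.symm⟩
    have : f z = f w := by rw [hk1, hk1', hShu k k' hk hk']
    exact hzw.ne (hinj this)
  have hallr : ∀ z, ∃ v, f z = emb X x lam α v := by
    intro z
    by_contra h
    have hzf : s z = some false := by
      simp only [hsdef]
      rw [if_neg (by
        rintro (h1 | ⟨k, _, h1⟩)
        · exact h ⟨x, by rw [h1, yloc_emb_x]⟩
        · exact h ⟨k.1, by rw [h1, yloc_emb_leaf]⟩), if_neg h]
    obtain ⟨y, w, hy, hw, hyw⟩ := hsep s p0 q0 (by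
      intro y hy
      rcases hs_none y hy with h1 | ⟨k, hk, h1⟩
      · exact Or.inl (hp0 y h1)
      · exact Or.inr (hq0 y k hk h1)) htrue ⟨z, hzf⟩
    exact hno y w hy hw hyw
  choose g hg using hallr
  refine ⟨α, g, ⟨?_, ?_⟩, hg⟩
  · intro z w hzw
    apply hinj
    rw [hg z, hg w, hzw]
  · intro z w hzw
    apply yloc_adj X x lam hlam hs2 α
    rw [← hg z, ← hg w]
    exact hadj z w hzw

end Pool.Agent.Helper77.SND
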